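import Mathlib

/-!
# MP_9999b5_co (Manickam-Miklos-Singhi), `n = 4k + T`: the scalar lemma (helper79)

`τ = T/(2k+T)`, `u = T/(k+T) = 2τ/(1+τ)`. For one set `C` of `2k + T` elements with sum `≥ 0`: `q = P(both halves negative)`,
`r = P(both halves nonnegative)`, `h = P(the T-set K is heavy)`.
`SP`: the two-level spectral bound (multiplied by `h (1 - h)`), `RF`: the flow on `k + T` elements, with a lower bound `f` for the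
fraction of nonnegative `T`-subsets of `k + T` elements.
-/

set_option autoImplicit false

namespace Pool.Agent.Work.MP_9999b5_full

/-- reduction to `r = 0` -/
theorem sca_sp {τ q r h : ℝ} (hτ0 : 0 < τ) (hτ1 : τ ≤ 1 / 3) (hq : 0 ≤ q) (hqh : q ≤ h) (hr : 0 ≤ r)
    (hrh : r ≤ 1 - h)
    (SP : (1 - τ ^ 2) * (q ^ 2 * (1 - h) + r ^ 2 * h) ≤
      h * (1 - h) * ((q - r) ^ 2 + τ - τ * (1 + τ) * (q + r))) :
    (1 - τ ^ 2) * q ^ 2 ≤ h * (q ^ 2 - τ * (1 + τ) * q + τ) := by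
  have hh0 : 0 ≤ h := hq.trans hqh
  have hl0 : 0 ≤ 1 - h := hr.trans hrh
  have hh1 : h ≤ 1 := by linarith
  rcases hl0.eq_or_lt with hl | hl
  · have h1 : h = 1 := by linarith
    have hq1 : q ≤ 1 := by linarith
    have h2 : 0 ≤ τ * ((1 - q) * (1 - τ * q)) := by
      refine mul_nonneg hτ0.le (mul_nonneg (by linarith) ?_)
      nlinarith
    rw [h1]
    nlinarith
  · have key : 0 ≤ h * r * (2 * q * (1 - h) + τ * (1 + τ) * (1 - h) + r * ((1 - τ ^ 2) - (1 - h))) := by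
      refine mul_nonneg (mul_nonneg hh0 hr) ?_
      have e1 : 0 ≤ q * (1 - h) := mul_nonneg hq hl.le
      have e2 : 0 ≤ τ * (1 - h) := mul_nonneg hτ0.le hl.le
      have e3 : 0 ≤ τ ^ 2 * (1 - h - r) := mul_nonneg (sq_nonneg τ) (by linarith)
      have e4 : 0 ≤ r * h := mul_nonneg hr hh0
      nlinarith
    have h3 : 0 ≤ (1 - h) * (h * (q ^ 2 - τ * (1 + τ) * q + τ) - (1 - τ ^ 2) * q ^ 2) := by
      nlinarith
    have h4 := nonneg_of_mul_nonneg_right h3 hl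
    linarith

theorem sca_E {τ : ℝ} (hτ0 : 0 < τ) (hτ1 : τ ≤ 1 / 3) (q : ℝ) :
    0 < q ^ 2 - τ * (1 + τ) * q + τ := by
  nlinarith [sq_nonneg (q - τ * (1 + τ) / 2), mul_pos hτ0 hτ0, mul_pos (mul_pos hτ0 hτ0) hτ0,
    mul_nonneg hτ0.le (sub_nonneg.2 hτ1), mul_nonneg (mul_nonneg hτ0.le hτ0.le) (sub_nonneg.2 hτ1),
    mul_nonneg (mul_nonneg (mul_nonneg hτ0.le hτ0.le) hτ0.le) (sub_nonneg.2 hτ1)]

theorem sca_R1 {τ u f q h : ℝ} (hτ0 : 0 < τ) (hu : u * (1 + τ) = 2 * τ)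
    (R0 : (1 - u) * h ≤ 1 - f - (u + f) * q) :
    (1 - τ) * h ≤ (1 - f) * (1 + τ) - (2 * τ + f * (1 + τ)) * q := by
  have e0 := mul_le_mul_of_nonneg_right R0 (show (0 : ℝ) ≤ 1 + τ by linarith)
  have e1 : (1 - u) * h * (1 + τ) = (1 - τ) * h := by linear_combination (-h) * hu
  have e2 : (1 - f - (u + f) * q) * (1 + τ) = (1 - f) * (1 + τ) - (2 * τ + f * (1 + τ)) * q := by
    linear_combination (-q) * hu
  rw [e1, e2] at e0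
  exact e0

/-- `(QL)` -/
theorem sca_QL {τ q h L Q : ℝ} (hτ0 : 0 < τ) (hτ1 : τ ≤ 1 / 3) (hqh : q ≤ h) (hL : 0 < L)
    (S0 : (1 - τ ^ 2) * q ^ 2 ≤ h * (q ^ 2 - τ * (1 + τ) * q + τ)) (hqQ : q ≤ Q) (hτQ : τ < Q)
    (h1 : τ * (L - τ) ≤ L - 1)
    (h2 : (1 + L) * Q ^ 2 - (L + τ + τ ^ 2) * Q + τ ≤ 0) :
    q - τ ≤ L * (h - q) := by
  by_contra hcon
  push Not at hcon
  have hE := sca_E hτ0 hτ1 q
  have hqτ : 0 < q - τ := by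
    have : 0 ≤ L * (h - q) := mul_nonneg hL.le (by linarith)
    linarith
  have h3 : L * ((1 - τ ^ 2) * q ^ 2) < ((1 + L) * q - τ) * (q ^ 2 - τ * (1 + τ) * q + τ) := by
    have e1 : L * ((1 - τ ^ 2) * q ^ 2) ≤ L * (h * (q ^ 2 - τ * (1 + τ) * q + τ)) :=
      mul_le_mul_of_nonneg_left S0 hL.le
    have e2 : (L * h) * (q ^ 2 - τ * (1 + τ) * q + τ) <
        ((1 + L) * q - τ) * (q ^ 2 - τ * (1 + τ) * q + τ) :=
      mul_lt_mul_of_pos_right (by linarith) hE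
    linarith
  have h4 : 0 < (q - τ) * ((1 + L) * q ^ 2 - (L + τ + τ ^ 2) * q + τ) := by
    nlinarith
  have h5 : 0 < (1 + L) * q ^ 2 - (L + τ + τ ^ 2) * q + τ :=
    (mul_pos_iff_of_pos_left hqτ).1 h4
  have h6 : (1 + L) * τ ^ 2 - (L + τ + τ ^ 2) * τ + τ ≤ 0 := by nlinarith
  have h7 : (Q - τ) * ((1 + L) * q ^ 2 - (L + τ + τ ^ 2) * q + τ) ≤ 0 := by
    have e1 : (Q - q) * ((1 + L) * τ ^ 2 - (L + τ + τ ^ 2) * τ + τ) ≤ 0 :=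
      mul_nonpos_of_nonneg_of_nonpos (by linarith) h6
    have e2 : (q - τ) * ((1 + L) * Q ^ 2 - (L + τ + τ ^ 2) * Q + τ) ≤ 0 :=
      mul_nonpos_of_nonneg_of_nonpos hqτ.le h2
    have e3 : 0 ≤ (1 + L) * ((Q - q) * (q - τ) * (Q - τ)) :=
      mul_nonneg (by linarith) (mul_nonneg (mul_nonneg (by linarith) hqτ.le) (by linarith))
    nlinarith
  have h8 : 0 < (Q - τ) * ((1 + L) * q ^ 2 - (L + τ + τ ^ 2) * q + τ) :=
    mul_pos (by linarith) h5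
  linarith

/-- the invariant: `q ≤ Q` -/
theorem sca_inv {τ u f q h Q : ℝ} (hτ0 : 0 < τ) (hτ1 : τ ≤ 1 / 3) (hq1 : q ≤ 1)
    (hu : u * (1 + τ) = 2 * τ)
    (S0 : (1 - τ ^ 2) * q ^ 2 ≤ h * (q ^ 2 - τ * (1 + τ) * q + τ))
    (R0 : (1 - u) * h ≤ 1 - f - (u + f) * q) (hQ : 0 < Q) (hf : 0 ≤ f)
    (hneg : ((1 - f) * (1 + τ) - (2 * τ + f * (1 + τ)) * Q) * (Q ^ 2 - τ * (1 + τ) * Q + τ) <
      (1 - τ ^ 2) * (1 - τ) * Q ^ 2) :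
    q ≤ Q := by
  by_contra hcon
  push Not at hcon
  have hq0 : 0 < q := hQ.trans hcon
  have hE := sca_E hτ0 hτ1 q
  have hEQ := sca_E hτ0 hτ1 Q
  have R1 : (1 - τ) * h ≤ (1 - f) * (1 + τ) - (2 * τ + f * (1 + τ)) * q := sca_R1 hτ0 hu R0
  have h1 : (1 - τ) * ((1 - τ ^ 2) * q ^ 2) ≤
      ((1 - f) * (1 + τ) - (2 * τ + f * (1 + τ)) * q) * (q ^ 2 - τ * (1 + τ) * q + τ) := by
    have e1 : (1 - τ) * ((1 - τ ^ 2) * q ^ 2) ≤ (1 - τ) * (h * (q ^ 2 - τ * (1 + τ) * q + τ)) :=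
      mul_le_mul_of_nonneg_left S0 (by linarith)
    have e2 : ((1 - τ) * h) * (q ^ 2 - τ * (1 + τ) * q + τ) ≤
        ((1 - f) * (1 + τ) - (2 * τ + f * (1 + τ)) * q) * (q ^ 2 - τ * (1 + τ) * q + τ) :=
      mul_le_mul_of_nonneg_right R1 hE.le
    linarith
  have hA : 0 ≤ (1 - f) * (1 + τ) - (2 * τ + f * (1 + τ)) * q := by
    by_contra hA
    push Not at hA
    have e1 := mul_neg_of_neg_of_pos hA hE
    have e3 : τ ^ 2 ≤ 1 := by nlinarith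
    have e2 : 0 ≤ (1 - τ) * ((1 - τ ^ 2) * q ^ 2) :=
      mul_nonneg (by linarith) (mul_nonneg (by linarith) (sq_nonneg q))
    linarith
  have hAm : (1 - f) * (1 + τ) - (2 * τ + f * (1 + τ)) * q ≤
      (1 - f) * (1 + τ) - (2 * τ + f * (1 + τ)) * Q := by
    have : 0 ≤ (2 * τ + f * (1 + τ)) * (q - Q) :=
      mul_nonneg (add_nonneg (by linarith) (mul_nonneg hf (by linarith))) (by linarith)
    linarith
  have hEm : Q ^ 2 * (q ^ 2 - τ * (1 + τ) * q + τ) ≤ q ^ 2 * (Q ^ 2 - τ * (1 + τ) * Q + τ) := by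
    have e1 : 0 ≤ q * Q := (mul_pos hq0 hQ).le
    have e2 : 0 ≤ q + Q - (1 + τ) * (q * Q) := by
      have e3 : q * Q ≤ Q := by nlinarith
      have e4 : q * Q ≤ q := by nlinarith
      nlinarith
    have e5 : 0 ≤ τ * ((q - Q) * (q + Q - (1 + τ) * (q * Q))) :=
      mul_nonneg hτ0.le (mul_nonneg (by linarith) e2)
    nlinarith
  have h2 : Q ^ 2 * ((1 - τ) * ((1 - τ ^ 2) * q ^ 2)) ≤
      q ^ 2 * (((1 - f) * (1 + τ) - (2 * τ + f * (1 + τ)) * Q) * (Q ^ 2 - τ * (1 + τ) * Q + τ)) := by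
    calc Q ^ 2 * ((1 - τ) * ((1 - τ ^ 2) * q ^ 2))
        ≤ Q ^ 2 * (((1 - f) * (1 + τ) - (2 * τ + f * (1 + τ)) * q) *
            (q ^ 2 - τ * (1 + τ) * q + τ)) := mul_le_mul_of_nonneg_left h1 (sq_nonneg Q)
      _ = ((1 - f) * (1 + τ) - (2 * τ + f * (1 + τ)) * q) *
            (Q ^ 2 * (q ^ 2 - τ * (1 + τ) * q + τ)) := by ring
      _ ≤ ((1 - f) * (1 + τ) - (2 * τ + f * (1 + τ)) * q) *
            (q ^ 2 * (Q ^ 2 - τ * (1 + τ) * Q + τ)) := mul_le_mul_of_nonneg_left hEm hA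
      _ ≤ ((1 - f) * (1 + τ) - (2 * τ + f * (1 + τ)) * Q) *
            (q ^ 2 * (Q ^ 2 - τ * (1 + τ) * Q + τ)) :=
          mul_le_mul_of_nonneg_right hAm (mul_nonneg (sq_nonneg q) hEQ.le)
      _ = _ := by ring
  have h3 : q ^ 2 * (((1 - f) * (1 + τ) - (2 * τ + f * (1 + τ)) * Q) *
      (Q ^ 2 - τ * (1 + τ) * Q + τ)) < q ^ 2 * ((1 - τ ^ 2) * (1 - τ) * Q ^ 2) :=
    mul_lt_mul_of_pos_left hneg (pow_pos hq0 2)
  have h4 : q ^ 2 * ((1 - τ ^ 2) * (1 - τ) * Q ^ 2) = Q ^ 2 * ((1 - τ) * ((1 - τ ^ 2) * q ^ 2)) := by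
    ring
  linarith

/-- `(HL)` -/
theorem sca_HL {τ u f q h L Q : ℝ} (hτ0 : 0 < τ) (hτ1 : τ ≤ 1 / 3) (hq0 : 0 ≤ q)
    (hu : u * (1 + τ) = 2 * τ)
    (R0 : (1 - u) * h ≤ 1 - f - (u + f) * q) (hqQ : q ≤ Q) (hQ : 0 < Q)
    (h0 : 0 ≤ (3 / 2 - τ / 4) * (1 - 3 * τ + f * (1 + τ)))
    (h1 : L * Q * (1 - τ) ≤ (3 / 2 - τ / 4) * (1 - 3 * τ + f * (1 + τ) - Q * (1 - 3 * τ - f * (1 + τ)))) :
    L * q ≤ (3 / 2 - τ / 4) * (2 - h - q) := by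
  have R1 : (1 - τ) * h ≤ (1 - f) * (1 + τ) - (2 * τ + f * (1 + τ)) * q := sca_R1 hτ0 hu R0
  have h2 : Q * (L * q * (1 - τ)) ≤
      Q * ((3 / 2 - τ / 4) * (1 - 3 * τ + f * (1 + τ) - q * (1 - 3 * τ - f * (1 + τ)))) := by
    have e1 := mul_le_mul_of_nonneg_left h1 hq0
    have e2 := mul_le_mul_of_nonneg_left h0 (sub_nonneg.2 hqQ)
    nlinarith
  have h3 := le_of_mul_le_mul_left h2 hQ
  have h4 : (3 / 2 - τ / 4) * (1 - 3 * τ + f * (1 + τ) - q * (1 - 3 * τ - f * (1 + τ))) ≤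
      (3 / 2 - τ / 4) * ((1 - τ) * (2 - h - q)) :=
    mul_le_mul_of_nonneg_left (by linarith) (by linarith)
  have h5 : (1 - τ) * (L * q) ≤ (1 - τ) * ((3 / 2 - τ / 4) * (2 - h - q)) := by linarith
  exact le_of_mul_le_mul_left h5 (by linarith)

/-- the flow inequality at `r` implies it at `0` -/
theorem sca_rf {u q r h f g : ℝ} (hq : 0 ≤ q) (hr : 0 ≤ r) (hgf : g ≤ f) (hf1 : f ≤ 1)
    (RF : f * (1 + q - r) ≤ (1 - h - r) + u * (h - q)) :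
    (1 - u) * h ≤ 1 - g - (u + g) * q := by
  have e1 : 0 ≤ (f - g) * (1 + q) := mul_nonneg (by linarith) (by linarith)
  have e2 : 0 ≤ (1 - f) * r := mul_nonneg (by linarith) hr
  nlinarith

/-- SCA, `T ≤ k / 3`: `τ ≤ 1/7`, `f ≥ u`. -/
theorem sca_small {τ u q r h f : ℝ} (hτ0 : 0 < τ) (hτ1 : τ ≤ 1 / 7) (hu : u * (1 + τ) = 2 * τ)
    (hq : 0 ≤ q) (hqh : q ≤ h) (hr : 0 ≤ r) (hrh : r ≤ 1 - h) (huf : u ≤ f) (hf1 : f ≤ 1)
    (SP : (1 - τ ^ 2) * (q ^ 2 * (1 - h) + r ^ 2 * h) ≤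
      h * (1 - h) * ((q - r) ^ 2 + τ - τ * (1 + τ) * (q + r)))
    (RF : f * (1 + q - r) ≤ (1 - h - r) + u * (h - q)) :
    q ≤ 1 / 2 ∧ q - τ ≤ 3 / 2 * (h - q) ∧ 3 / 2 * q ≤ (3 / 2 - τ / 4) * (2 - h - q) := by
  have hτ2 : τ ≤ 1 / 3 := by linarith
  have S0 := sca_sp hτ0 hτ2 hq hqh hr hrh SP
  have R0 := sca_rf (g := u) hq hr huf hf1 RF
  have hu0 : 0 ≤ u := by
    by_contra hcon
    push Not at hcon
    nlinarith
  have hu1 : u * (1 + τ) = 2 * τ := hu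
  have e1 : (1 - u) * (1 + τ) = 1 - τ := by linear_combination (-1) * hu
  have h1 : q ≤ 1 / 2 := by
    refine sca_inv (Q := 1 / 2) hτ0 hτ2 (by linarith) hu S0 R0 (by norm_num) hu0 ?_
    rw [e1, hu]
    nlinarith [mul_pos hτ0 hτ0, mul_nonneg (mul_nonneg hτ0.le hτ0.le) (sub_nonneg.2 hτ1)]
  refine ⟨h1, ?_, ?_⟩
  · refine sca_QL hτ0 hτ2 hqh (by norm_num) S0 h1 (by linarith) ?_ ?_
    · nlinarith
    · nlinarith
  · refine sca_HL (Q := 1 / 2) hτ0 hτ2 hq hu R0 h1 (by norm_num) ?_ ?_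
    · rw [hu]
      refine mul_nonneg (by linarith) (by linarith)
    · rw [hu]
      nlinarith

/-- SCA, all `T < k` (used for `k / 3 < T < k`): four intervals with the values of `f` of the induction. -/
theorem sca_big {τ u q r h f : ℝ} (hτ0 : 0 < τ) (hu : u * (1 + τ) = 2 * τ)
    (hq : 0 ≤ q) (hqh : q ≤ h) (hr : 0 ≤ r) (hrh : r ≤ 1 - h) (hf1 : f ≤ 1)
    (hf : (τ ≤ 3 / 17 ∧ 9 / 49 ≤ f) ∨ (τ ≤ 1 / 5 ∧ 1 / 5 ≤ f) ∨ (τ ≤ 3 / 11 ∧ 9 / 40 ≤ f) ∨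
      (τ ≤ 1 / 3 ∧ 1 / 4 ≤ f))
    (SP : (1 - τ ^ 2) * (q ^ 2 * (1 - h) + r ^ 2 * h) ≤
      h * (1 - h) * ((q - r) ^ 2 + τ - τ * (1 + τ) * (q + r)))
    (RF : f * (1 + q - r) ≤ (1 - h - r) + u * (h - q)) :
    q ≤ 11 / 20 ∧ q - τ ≤ 8 / 5 * (h - q) ∧ 8 / 5 * q ≤ (3 / 2 - τ / 4) * (2 - h - q) := by
  have hτ1 : τ ≤ 1 / 3 := by
    rcases hf with hf | hf | hf | hf <;> linarith [hf.1]
  have S0 := sca_sp hτ0 hτ1 hq hqh hr hrh SP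
  have main : ∀ g : ℝ, g ≤ f → 0 ≤ g →
      ((1 - g) * (1 + τ) - (2 * τ + g * (1 + τ)) * (11 / 20)) *
        ((11 / 20) ^ 2 - τ * (1 + τ) * (11 / 20) + τ) < (1 - τ ^ 2) * (1 - τ) * (11 / 20) ^ 2 →
      8 / 5 * (11 / 20) * (1 - τ) ≤ (3 / 2 - τ / 4) *
        (1 - 3 * τ + g * (1 + τ) - 11 / 20 * (1 - 3 * τ - g * (1 + τ))) →
      q ≤ 11 / 20 ∧ q - τ ≤ 8 / 5 * (h - q) ∧ 8 / 5 * q ≤ (3 / 2 - τ / 4) * (2 - h - q) := by
    intro g hgf hg0 hneg hHL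
    have R0 := sca_rf (g := g) hq hr hgf hf1 RF
    have h1 : q ≤ 11 / 20 :=
      sca_inv (Q := 11 / 20) hτ0 hτ1 (by linarith) hu S0 R0 (by norm_num) hg0 hneg
    refine ⟨h1, ?_, ?_⟩
    · refine sca_QL hτ0 hτ1 hqh (by norm_num) S0 h1 (by linarith) ?_ ?_
      · nlinarith
      · nlinarith
    · refine sca_HL (Q := 11 / 20) hτ0 hτ1 hq hu R0 h1 (by norm_num) ?_ hHL
      exact mul_nonneg (by linarith) (by nlinarith)
  have t2 : 0 < τ * τ := mul_pos hτ0 hτ0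
  have t3 : 0 < τ * τ * τ := mul_pos t2 hτ0
  rcases hf with ⟨h1, h2⟩ | ⟨h1, h2⟩ | ⟨h1, h2⟩ | ⟨h1, h2⟩
  · refine main (9 / 49) h2 (by norm_num) ?_ ?_
    · nlinarith [mul_nonneg hτ0.le (sub_nonneg.2 h1), mul_nonneg t2.le (sub_nonneg.2 h1)]
    · nlinarith [mul_nonneg hτ0.le (sub_nonneg.2 h1)]
  · refine main (1 / 5) h2 (by norm_num) ?_ ?_
    · nlinarith [mul_nonneg hτ0.le (sub_nonneg.2 h1), mul_nonneg t2.le (sub_nonneg.2 h1)]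
    · nlinarith [mul_nonneg hτ0.le (sub_nonneg.2 h1)]
  · refine main (9 / 40) h2 (by norm_num) ?_ ?_
    · nlinarith [mul_nonneg hτ0.le (sub_nonneg.2 h1), mul_nonneg t2.le (sub_nonneg.2 h1)]
    · nlinarith [mul_nonneg hτ0.le (sub_nonneg.2 h1)]
  · refine main (1 / 4) h2 (by norm_num) ?_ ?_
    · nlinarith [mul_nonneg hτ0.le (sub_nonneg.2 h1), mul_nonneg t2.le (sub_nonneg.2 h1)]
    · nlinarith [mul_nonneg hτ0.le (sub_nonneg.2 h1)]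

end Pool.Agent.Work.MP_9999b5_full
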